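import Pool.Agent.Lib.MP_9dcf40_lc.DW.All
import Pool.Agent.Lib.MP_9dcf40_lc.DW.Trd

/-!
MP_9dcf40_lc. Time, space and advantage of deterministic, randomised and strongly unambiguous Boolean branching
programs of length up to `c v log v / log log v` for the circuit value problem.

`SUnamb P`: each input has at most one accepting path, and of two paths with the same ends on which one input passes
all tests one is an initial part of the other. Deterministic programs have this property (first part). There are
`A`, `N` such that for all `n ≥ N`, `K` and `m ≥ n K ^ (A K)` some circuit `c` with `n` inputs and `m` NAND gates of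
fan-in two has the following properties for `2 ≤ k ≤ K` and `H = k ^ (A k)`:

1. for `a ≥ 1`, `a H ≤ n` and a strongly unambiguous program over the `n` bits of `y` with fewer than
`exp (n / (a H))` states: among the `y` accepted with at most `k n` tests, the number of those for which the value
of `c` is `1` and the number of those for which it is `0` differ by at most `2 ^ (-a)` times the number of all
of them, plus `2 ^ n exp (- n / H)`;

2. for `a ≥ 1`, `a ^ 2 H log n ≤ n`, `t` such that `t n` is at least the number of bits of a circuit, and a strongly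
unambiguous program over the bits of circuits and of `t` inputs `y^1, .., y^t` with fewer than `exp (n / (a H))`
states, the same holds for the inputs `Y = (y^1, .., y^t)` such that `(c, Y)` is accepted with at most `k` tests per
variable (in total), and the parity of the values of `c` on `y^1, .., y^t`;

3. The time-space tradeoff: there are `C > 0` and `V` such that for `v ≥ V`, `a ≥ 1`, `a ln v ≤ S` and
`a S (ln v)^2 ≤ v` there are `n`, `m`, `t` such that a circuit and `t` inputs have at most `v` bits, and for each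
probability distribution on pairs of strongly unambiguous programs with at most `2 ^ S` states (one accepts inputs
for which the answer is `true`, the other one those for which it is `false`) some input gets the right answer, with
at most `C v ln (v / (a S)) / ln ln (v / (a S))` tests, with probability less than `1 / 2 + 2 ^ (-a)`.
-/

namespace Pool.Agent.Results.MP_9dcf40_lc.DetTradeoff

open SRBP

theorem result : (∀ (ι : Type) (P : NBP ι), DetA P → SUnamb P) ∧
    (∃ A N : ℕ, 1 ≤ A ∧ ∀ n ≥ N, ∀ K m : ℕ, n * K ^ (A * K) ≤ m → ∃ c : GBits n m → Bool,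
      (∀ k a : ℕ, 2 ≤ k → k ≤ K → 1 ≤ a → a * (k : ℝ) ^ (A * k) ≤ n →
        ∀ P : NBP (Fin n), SUnamb P → (Fintype.card P.V : ℝ) < Real.exp (n / (a * (k : ℝ) ^ (A * k))) →
        |(Nat.card {y : Fin n → Bool // AccIn P (k * n) y ∧ GVal n m c y} : ℝ) -
            Nat.card {y : Fin n → Bool // AccIn P (k * n) y ∧ ¬ GVal n m c y}| ≤
          (Nat.card {y : Fin n → Bool // AccIn P (k * n) y} : ℝ) / 2 ^ a +
            2 ^ n * Real.exp (-(n / (k : ℝ) ^ (A * k)))) ∧
      (∀ k a : ℕ, 2 ≤ k → k ≤ K → 1 ≤ a → a ^ 2 * (k : ℝ) ^ (A * k) * Real.log n ≤ n →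
        ∀ t T : ℕ, Fintype.card (GBits n m) ≤ t * n →
          T = k * Fintype.card (GBits n m ⊕ Fin t × Fin n) →
        ∀ P : NBP (GBits n m ⊕ Fin t × Fin n), SUnamb P →
        (Fintype.card P.V : ℝ) < Real.exp (n / (a * (k : ℝ) ^ (A * k))) →
        |(Nat.card {Y : Fin t × Fin n → Bool //
              AccIn P T (Sum.elim c Y) ∧ OddG n m t (Sum.elim c Y)} : ℝ) -
            Nat.card {Y : Fin t × Fin n → Bool //
              AccIn P T (Sum.elim c Y) ∧ ¬ OddG n m t (Sum.elim c Y)}| ≤
          (Nat.card {Y : Fin t × Fin n → Bool // AccIn P T (Sum.elim c Y)} : ℝ) / 2 ^ a +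
            2 ^ (t * n) * Real.exp (-(n / (k : ℝ) ^ (A * k))))) ∧
    ∃ C : ℝ, 0 < C ∧ ∃ V : ℕ, ∀ v ≥ V, ∀ (a : ℕ) (S : ℝ), 1 ≤ a →
      a * Real.log v ≤ S → a * S * Real.log v ^ 2 ≤ v →
      ∃ n m t : ℕ, Fintype.card (GBits n m ⊕ Fin t × Fin n) ≤ v ∧
        ∀ T : ℕ, (T : ℝ) ≤ C * v * Real.log (v / (a * S)) / Real.log (Real.log (v / (a * S))) →
        ∀ (I : Type) [Fintype I] (P : I → Bool → NBP (GBits n m ⊕ Fin t × Fin n)) (w : I → ℝ),
          (∀ i, 0 ≤ w i) → ∑ i, w i = 1 → (∀ i b, SUnamb (P i b)) →
          (∀ i T z, ¬ (AccIn (P i true) T z ∧ AccIn (P i false) T z)) →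
          (∀ i b, (Fintype.card (P i b).V : ℝ) ≤ 2 ^ S) →
          ∃ z : GBits n m ⊕ Fin t × Fin n → Bool, ∀ X : Finset I,
            (∀ i ∈ X, ∃ b : Bool, AccIn (P i b) T z ∧ (b = true ↔ OddG n m t z)) →
              ∑ i ∈ X, w i < 1 / 2 + 1 / 2 ^ a := by
  refine ⟨tDetU, ?_, tTrd finAll⟩
  obtain ⟨A, N, hA, h⟩ := finAll
  exact ⟨A, N, hA, fun n hn K m hm => (h n hn K m hm).imp fun c hc => ⟨hc.1, hc.2.1⟩⟩

end Pool.Agent.Results.MP_9dcf40_lc.DetTradeoff
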