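import Pool.Agent.Lib.MP_9dcf40_lc.SU.All

/-!
MP_9dcf40_lc. The P-complete generation problem, and nondeterministic branching programs which ask
(up to few exceptional elements) only for products of generated elements. For straight-line
programs with `N` steps over `k` elements, `k` polynomial in `N`, the size `2 ^ (N ^ (1/2 - o(1)))`
is necessary in the worst case, even on average, and the size `2 ^ (N ^ (1/2 + o(1)))` is
sufficient for all of them.
-/

namespace Pool.Agent.Results.MP_9dcf40_lc.GenSqrt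

open Pool.Agent.Lib.BP Pool.Agent.Lib.MP_9dcf40_lc.SU

theorem result (X : Type) [Fintype X] (s t : X) (hst : s ≠ t) :
    (∀ c τ : ℕ, 1 ≤ τ → τ ≤ c →
      2000000000 * (c * τ * (Nat.log 2 c + 4) ^ 3) ≤ Fintype.card X →
      ∃ (N : ℕ) (sl : ℕ → ℕ × ℕ) (ι : Type) (_ : Fintype ι) (g : ι → X × X → X),
        N ≤ 48 * (c * τ * (Nat.log 2 c + 4)) ∧ Nonempty ι ∧ (∀ i, run sl s (g i) N = t) ∧
        ∀ (P : NBP (X × X) X) (r : ℕ), 2 * r ≤ c → Sound P s t → AlmostGen P s r →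
          Fintype.card ι ≤ 2 ^ c * Nat.card {i // ∃ l, ∃ q ∈ P.acc,
            P.Comp (g i) P.start l q ∧ (l.length < 2 ^ τ ∨ τ = c)} → 2 ^ c ≤ P.size) ∧
    ∀ (N : ℕ) (sl : ℕ → ℕ × ℕ), ∃ P : NBP (X × X) X, Sound P s t ∧ AlmostGen P s 0 ∧
      (∀ g, P.Accepts g ↔ run sl s g N = t) ∧
      P.size ≤ (Fintype.card X * (Nat.sqrt N + 1)) ^ (50 * (Nat.sqrt N + 1)) :=
  ⟨fun c τ h1 h2 h3 => low X s t hst c τ h1 h2 h3, fun N sl => up X s t hst N sl⟩

end Pool.Agent.Results.MP_9dcf40_lc.GenSqrt
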