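import Pool.Agent.Lib.MP_9dcf40_lc.Reg.Fin

/-!
MP_9dcf40_lc.  Register programs in the sense of Cook and Mertz (registers hold elements of a
vector space, linear combinations are free, the gates of the circuit are black box bilinear maps on
blocks of `b` coordinates): the stack of FFT graphs with `H + 1` levels of `2 ^ k` gates needs
`2 ^ (H / (k + 1))` rounds if there are at most `b 2 ^ k / (32 k)` registers, whereas `H + 1` rounds
are enough with `b 2 ^ k` registers, and `3 b` registers are always enough.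
-/

namespace Pool.Agent.Results.MP_9dcf40_lc.Registers

open Pool.Agent.Lib.MP_9dcf40_lc.Reg

theorem result (F : Type) [Field F] (b : ℕ) (hb : 1 ≤ b) :
    (∀ k H : ℕ, 1 ≤ k → ∃ (A : Type) (_ : AddCommGroup A) (_ : Module F A) (_ : Module.Finite F A)
      (I : Interp F (W k) (Fin (H + 1) × W k) (Fin b) A)
      (val : W k ⊕ (Fin (H + 1) × W k) → Fin b → A), IsValuation (fft k (H + 1)) I val ∧
      ∀ (R : Type) [Fintype R], 32 * (k * Fintype.card R) ≤ b * 2 ^ k →
        ∀ (P : List (Round F (W k) (Fin (H + 1) × W k) (Fin b) R)) (g : R) (v : W k)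
          (i : Fin b), run I P (fun _ => 0) g = val (Sum.inr (Fin.last H, v)) i →
          2 ^ (H / (k + 1)) ≤ P.length) ∧
    (∀ r q : ℕ, 1 ≤ r → ∃ k H : ℕ,
      (H + 1) * 2 ^ k ≤ 25000 * ((q + 1) * r * (Nat.log 2 r + 1) ^ 2) ∧
      ∃ (A : Type) (_ : AddCommGroup A) (_ : Module F A) (_ : Module.Finite F A)
      (I : Interp F (W k) (Fin (H + 1) × W k) (Fin b) A)
      (val : W k ⊕ (Fin (H + 1) × W k) → Fin b → A), IsValuation (fft k (H + 1)) I val ∧
      ∀ (R : Type) [Fintype R], Fintype.card R ≤ b * r →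
        ∀ (P : List (Round F (W k) (Fin (H + 1) × W k) (Fin b) R)) (g : R) (v : W k)
          (i : Fin b), run I P (fun _ => 0) g = val (Sum.inr (Fin.last H, v)) i →
          2 ^ q ≤ P.length) ∧
    (∀ k H : ℕ, ∃ P : List (Round F (W k) (Fin (H + 1) × W k) (Fin b) (W k × Fin b)),
      P.length = H + 1 ∧ ∀ (A : Type) [AddCommGroup A] [Module F A]
        (I : Interp F (W k) (Fin (H + 1) × W k) (Fin b) A)
        (val : W k ⊕ (Fin (H + 1) × W k) → Fin b → A), IsValuation (fft k (H + 1)) I val →
        ∀ x v i, run I P x (v, i) = val (Sum.inr (Fin.last H, v)) i) ∧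
    (∀ (k H : ℕ) (v : W k),
      ∃ P : List (Round F (W k) (Fin (H + 1) × W k) (Fin b) (Fin 3 × Fin b)),
      P.length ≤ 3 * 4 ^ (H + 1) ∧ ∀ (A : Type) [AddCommGroup A] [Module F A]
        (I : Interp F (W k) (Fin (H + 1) × W k) (Fin b) A)
        (val : W k ⊕ (Fin (H + 1) × W k) → Fin b → A), IsValuation (fft k (H + 1)) I val →
        ∀ x p, run I P x p
          = x p + if p.1 = 0 then val (Sum.inr (Fin.last H, v)) p.2 else 0) :=
  ⟨fun k H hk => lower F b k H hb hk, fun r q hr => tradeoff F b r q hb hr,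
    fun k H => levels F b k H, fun k H v => three F b k H v⟩

end Pool.Agent.Results.MP_9dcf40_lc.Registers
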