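import Pool.Agent.Lib.MP_9dcf40_lc.LIN.AllQ

/-!
MP_9dcf40_lc. Boolean nondeterministic branching programs of superlinear length for the circuit value
function, with no restriction on inconsistent paths. There is a constant `A` such that for all large `n`, and
all `k ≥ 2` with `k ^ A ≤ log n`, with `ε = exp (- k ^ A)`:

1. if at least `2 ^ n * exp (- ε n)` of the inputs `y` of a suitable circuit `c` with `O (n ^ 4)` gates (the same
for all `k`) are accepted by computations with at most `k n` tests of the `n` bits `y_i` outside some set of at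
most `ε n` of them (these and the bits of `c` may be tested arbitrarily often), and all accepted `y` have the
value `1`, then the program has at least `exp (ε n)` states;

2. a program which computes `MVal` (the circuit `c` has the value `1` on all inputs `y_1, …, y_t`, where `t n`
is at least the number of bits of `c`) such that every accepted input has an accepting computation whose
length is at most `k` times the number of variables has at least `exp (ε n)` states.

So length `n (log n) ^ γ` needs size `exp (n ^ (1 - o(1)))`.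
-/

namespace Pool.Agent.Results.MP_9dcf40_lc.TimeSpace

open SRBP

theorem result : ∃ A N : ℕ, 1 ≤ A ∧ ∀ n ≥ N, ∀ m ≥ 9 * (n + 1) ^ 4,
    (∃ c : CBits n m → Bool, 2 ^ (n - 2) ≤ Nat.card {y // Val n m c y} ∧
      ∀ k : ℕ, 2 ≤ k → (k : ℝ) ^ A ≤ Real.log n →
      ∀ (P : NBP (CBits n m ⊕ Fin n)) (s : ℕ), (s : ℝ) ≤ Real.exp (-(k : ℝ) ^ A) * n →
        (∀ y, Accepts P (Sum.elim c y) → Val n m c y) →
        (2 : ℝ) ^ n * Real.exp (-(Real.exp (-(k : ℝ) ^ A) * n)) ≤
          Nat.card {y // Short P (k * n) s (Sum.elim c y)} →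
        Real.exp (Real.exp (-(k : ℝ) ^ A) * n) ≤ Fintype.card P.V) ∧
    ∀ k : ℕ, 2 ≤ k → (k : ℝ) ^ A ≤ Real.log n → ∀ t : ℕ, Fintype.card (CBits n m) ≤ t * n →
      ∀ P : NBP (CBits n m ⊕ Fin t × Fin n), (∀ z, Accepts P z → MVal n m t z) →
        (∀ z, MVal n m t z → ∃ v l, P.acc v ∧ Walk P P.start l v ∧ Consistent z l ∧
          l.length ≤ k * Fintype.card (CBits n m ⊕ Fin t × Fin n)) →
        Real.exp (Real.exp (-(k : ℝ) ^ A) * n) ≤ Fintype.card P.V :=
  endQ aShQ aTotQ

end Pool.Agent.Results.MP_9dcf40_lc.TimeSpace
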